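import Pool.Agent.Helper88_SA.StmtD

/-!
# BND (MP_de6679_lc)

Bounds for D 171 r / S 171.
-/

namespace SA

namespace H18

theorem num_check_lo : ∀ r, r ≤ 56 → (Dlo.getD r 0 : ℚ) ≤
    10 ^ 9 * ((1 - (36954776203 / 37990276203 : ℚ) ^ r) * (37990276203 / 1035500000) +
      36.954776203 * (1 - (36954776204 / 37989876204 : ℚ) ^ r)) := by
  intro r hr
  interval_cases r <;> norm_num [Dlo]

theorem num_check_hi : ∀ r, r ≤ 56 →
    10 ^ 9 * ((1 - (36954776204 / 37989876204 : ℚ) ^ r) * (37989876204 / 1035100000) +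
      36.954776204 * (1 - (36954776203 / 37990276203 : ℚ) ^ r)) ≤ (Dhi.getD r 0 : ℚ) := by
  intro r hr
  interval_cases r <;> norm_num [Dhi]

theorem bnd : BndStmt := by
  intro T z κ N S y D hT1 hT2 hD hq hy r hr
  have hTl : (36.954776203 : ℝ) ≤ T := by
    refine le_trans ?_ hT1
    rw [Tlo, Tm]
    norm_num
  have hTh : T ≤ (36.954776204 : ℝ) := by
    refine le_trans hT2 ?_
    rw [Thi, Tm]
    norm_num
  have hT0 : 0 < T := by linarith
  have hyS : ∀ n, y n = T * (S n - S (n + 1)) := by
    intro n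
    have h1 := hD.S_step n
    have h2 : y n / T * T = y n := div_mul_cancel₀ _ hT0.ne'
    have h3 : S n - S (n + 1) = y n / T := by linarith
    rw [h3, mul_comm, h2]
  have hsum : ∀ r n, r ≤ 56 → 171 ≤ n → n + r ≤ 1000 →
      D n r = ∑ l ∈ Finset.range r, S (n + l) + T * (S n - S (n + r)) := by
    intro r
    induction r with
    | zero =>
      intro n _ _ _
      rw [hD.D_zero, Finset.sum_range_zero, add_zero, sub_self, mul_zero, add_zero]
    | succ r ih =>
      intro n hr hn hnr
      have hk : κ n = 0 := hq n hn (by omega)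
      have h1 := hD.D_search n (r + 1) (by omega) (by rw [hk]; omega)
      rw [Nat.add_sub_cancel, ih (n + 1) (by omega) (by omega) (by omega), hyS n] at h1
      rw [h1, Finset.sum_range_succ']
      have h2 : ∑ l ∈ Finset.range r, S (n + 1 + l) = ∑ l ∈ Finset.range r, S (n + (l + 1)) :=
        Finset.sum_congr rfl fun l _ => by rw [show n + 1 + l = n + (l + 1) by ring]
      rw [h2, show n + 1 + r = n + (r + 1) by ring, add_zero]
      ring
  set ql : ℝ := 36954776203 / 37990276203 with hql
  set qh : ℝ := 36954776204 / 37989876204 with hqh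
  have hlo1 : ∀ n, 171 ≤ n → n ≤ 7000 → ql * S n ≤ S (n + 1) := by
    intro n h1 h2
    have h3 := (hy n h1 h2).2
    rw [hyS n] at h3
    have h4 := hD.S_pos (n + 1)
    have h5 : S n ≤ S (n + 1) * (1 + 1.0355 / T) := by
      have : T * S n ≤ T * (S (n + 1) * (1 + 1.0355 / T)) := by
        have e : T * (S (n + 1) * (1 + 1.0355 / T)) = T * S (n + 1) + 1.0355 * S (n + 1) := by
          field_simp
        rw [e]; linarith
      exact le_of_mul_le_mul_left this hT0
    have h6 : 1.0355 / T ≤ 1.0355 / 36.954776203 := by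
      apply div_le_div_of_nonneg_left (by norm_num) (by norm_num) hTl
    have h7 : S n ≤ S (n + 1) * (1 + 1.0355 / 36.954776203) := by nlinarith
    calc ql * S n ≤ ql * (S (n + 1) * (1 + 1.0355 / 36.954776203)) :=
          mul_le_mul_of_nonneg_left h7 (by rw [hql]; norm_num)
      _ = S (n + 1) := by rw [hql]; ring
  have hhi1 : ∀ n, 171 ≤ n → n ≤ 7000 → S (n + 1) ≤ qh * S n := by
    intro n h1 h2
    have h3 := (hy n h1 h2).1
    rw [hyS n] at h3
    have h4 := hD.S_pos (n + 1)
    have h5 : S (n + 1) * (1 + 1.0351 / T) ≤ S n := by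
      have : T * (S (n + 1) * (1 + 1.0351 / T)) ≤ T * S n := by
        have e : T * (S (n + 1) * (1 + 1.0351 / T)) = T * S (n + 1) + 1.0351 * S (n + 1) := by
          field_simp
        rw [e]; linarith
      exact le_of_mul_le_mul_left this hT0
    have h6 : 1.0351 / 36.954776204 ≤ 1.0351 / T := by
      apply div_le_div_of_nonneg_left (by norm_num) hT0 hTh
    have h7 : S (n + 1) * (1 + 1.0351 / 36.954776204) ≤ S n := by nlinarith
    calc S (n + 1) = qh * (S (n + 1) * (1 + 1.0351 / 36.954776204)) := by rw [hqh]; ring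
      _ ≤ qh * S n := mul_le_mul_of_nonneg_left h7 (by rw [hqh]; norm_num)
  have hlo : ∀ l, l ≤ 56 → ql ^ l * S 171 ≤ S (171 + l) := by
    intro l
    induction l with
    | zero => intro _; simp
    | succ l ih =>
      intro hl
      have h1 := ih (by omega)
      have h2 := hlo1 (171 + l) (by omega) (by omega)
      have h3 : ql * (ql ^ l * S 171) ≤ ql * S (171 + l) :=
        mul_le_mul_of_nonneg_left h1 (by rw [hql]; norm_num)
      rw [pow_succ]
      calc _ = ql * (ql ^ l * S 171) := by ring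
        _ ≤ _ := h3.trans h2
  have hhi : ∀ l, l ≤ 56 → S (171 + l) ≤ qh ^ l * S 171 := by
    intro l
    induction l with
    | zero => intro _; simp
    | succ l ih =>
      intro hl
      have h1 := ih (by omega)
      have h2 := hhi1 (171 + l) (by omega) (by omega)
      have h3 : qh * S (171 + l) ≤ qh * (qh ^ l * S 171) :=
        mul_le_mul_of_nonneg_left h1 (by rw [hqh]; norm_num)
      rw [pow_succ]
      calc _ ≤ qh * (qh ^ l * S 171) := h2.trans h3
        _ = _ := by ring
  have hS0 := hD.S_pos 171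
  have hgl : ∀ r : ℕ, ∑ l ∈ Finset.range r, ql ^ l = (1 - ql ^ r) * (37990276203 / 1035500000) := by
    intro r
    rw [geom_sum_eq (by rw [hql]; norm_num)]
    rw [hql]
    field_simp
    ring
  have hgh : ∀ r : ℕ, ∑ l ∈ Finset.range r, qh ^ l = (1 - qh ^ r) * (37989876204 / 1035100000) := by
    intro r
    rw [geom_sum_eq (by rw [hqh]; norm_num)]
    rw [hqh]
    field_simp
    ring
  have hDr := hsum r 171 hr le_rfl (by omega)
  have hqh1 : qh ^ r ≤ 1 := pow_le_one₀ (by rw [hqh]; norm_num) (by rw [hqh]; norm_num)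
  have hql1 : ql ^ r ≤ 1 := pow_le_one₀ (by rw [hql]; norm_num) (by rw [hql]; norm_num)
  constructor
  · have h1 : (∑ l ∈ Finset.range r, ql ^ l) * S 171 ≤ ∑ l ∈ Finset.range r, S (171 + l) := by
      rw [Finset.sum_mul]
      exact Finset.sum_le_sum fun l hl => hlo l (by rw [Finset.mem_range] at hl; omega)
    have h2 : 36.954776203 * ((1 - qh ^ r) * S 171) ≤ T * (S 171 - S (171 + r)) := by
      have h3 := hhi r hr
      have h4 : (1 - qh ^ r) * S 171 ≤ S 171 - S (171 + r) := by linarith
      have h5 : 0 ≤ (1 - qh ^ r) * S 171 := mul_nonneg (by linarith) hS0.le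
      exact mul_le_mul hTl h4 h5 hT0.le
    have h6 : ((Dlo.getD r 0 : ℕ) : ℝ) ≤ 10 ^ 9 * ((1 - ql ^ r) * (37990276203 / 1035500000) +
        36.954776203 * (1 - qh ^ r)) := by
      have := num_check_lo r hr
      have h7 : (((Dlo.getD r 0 : ℕ) : ℚ) : ℝ) ≤ ((10 ^ 9 * ((1 - (36954776203 / 37990276203 : ℚ) ^ r) *
        (37990276203 / 1035500000) + 36.954776203 * (1 - (36954776204 / 37989876204 : ℚ) ^ r)) : ℚ)
          : ℝ) := by exact_mod_cast this
      push_cast at h7
      rw [hql, hqh]
      convert h7 using 2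
    rw [hgl] at h1
    calc ((Dlo.getD r 0 : ℕ) : ℝ) * S 171 ≤ (10 ^ 9 * ((1 - ql ^ r) * (37990276203 / 1035500000) +
        36.954776203 * (1 - qh ^ r))) * S 171 := mul_le_mul_of_nonneg_right h6 hS0.le
      _ ≤ 10 ^ 9 * D 171 r := by
        rw [hDr]
        nlinarith
  · have h1 : ∑ l ∈ Finset.range r, S (171 + l) ≤ (∑ l ∈ Finset.range r, qh ^ l) * S 171 := by
      rw [Finset.sum_mul]
      exact Finset.sum_le_sum fun l hl => hhi l (by rw [Finset.mem_range] at hl; omega)
    have h2 : T * (S 171 - S (171 + r)) ≤ 36.954776204 * ((1 - ql ^ r) * S 171) := by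
      have h3 := hlo r hr
      have h4 : S 171 - S (171 + r) ≤ (1 - ql ^ r) * S 171 := by linarith
      have h5 : 0 ≤ S 171 - S (171 + r) := by
        have h8 := hhi r hr
        have h9 : qh ^ r * S 171 ≤ 1 * S 171 := mul_le_mul_of_nonneg_right hqh1 hS0.le
        linarith
      exact mul_le_mul hTh h4 h5 (by norm_num)
    have h6 : 10 ^ 9 * ((1 - qh ^ r) * (37989876204 / 1035100000) +
        36.954776204 * (1 - ql ^ r)) ≤ ((Dhi.getD r 0 : ℕ) : ℝ) := by
      have := num_check_hi r hr
      have h7 : ((10 ^ 9 * ((1 - (36954776204 / 37989876204 : ℚ) ^ r) *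
        (37989876204 / 1035100000) + 36.954776204 * (1 - (36954776203 / 37990276203 : ℚ) ^ r)) : ℚ)
          : ℝ) ≤ (((Dhi.getD r 0 : ℕ) : ℚ) : ℝ) := by exact_mod_cast this
      push_cast at h7
      rw [hql, hqh]
      convert h7 using 2
    rw [hgh] at h1
    calc 10 ^ 9 * D 171 r ≤ (10 ^ 9 * ((1 - qh ^ r) * (37989876204 / 1035100000) +
        36.954776204 * (1 - ql ^ r))) * S 171 := by
          rw [hDr]
          nlinarith
      _ ≤ _ := mul_le_mul_of_nonneg_right h6 hS0.le

end H18

end SA
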