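import Pool.Agent.Helper88_SA.StmtN

/-!
# CS (MP_de6679_lc)

Cosine and sine in the middle of the cells.
-/

namespace SA

namespace H18

def Xc (c : ℤ) : ℤ := 128606789191749 * (2 * c + 1)

def Dc : ℤ := 16 * 10 ^ 15

def cosP (X : ℤ) : ℤ :=
  Dc ^ 16 * 20922789888000 - Dc ^ 14 * X ^ 2 * 10461394944000 + Dc ^ 12 * X ^ 4 * 871782912000 -
    Dc ^ 10 * X ^ 6 * 29059430400 + Dc ^ 8 * X ^ 8 * 518918400 - Dc ^ 6 * X ^ 10 * 5765760 +
    Dc ^ 4 * X ^ 12 * 43680 - Dc ^ 2 * X ^ 14 * 240 + X ^ 16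

def sinP (X : ℤ) : ℤ :=
  Dc ^ 16 * X * 355687428096000 - Dc ^ 14 * X ^ 3 * 59281238016000 +
    Dc ^ 12 * X ^ 5 * 2964061900800 - Dc ^ 10 * X ^ 7 * 70572902400 +
    Dc ^ 8 * X ^ 9 * 980179200 - Dc ^ 6 * X ^ 11 * 8910720 + Dc ^ 4 * X ^ 13 * 57120 -
    Dc ^ 2 * X ^ 15 * 272 + X ^ 17

def cok (c : ℤ) : Bool :=
  decide (10 * (cosP (Xc c) * 10 ^ 10 - Ct c * (Dc ^ 16 * 20922789888000)) ≤
      18 * (Dc ^ 16 * 20922789888000)) &&
  decide (-(18 * (Dc ^ 16 * 20922789888000)) ≤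
      10 * (cosP (Xc c) * 10 ^ 10 - Ct c * (Dc ^ 16 * 20922789888000)))

def sok (c : ℤ) : Bool :=
  decide (10 * (sinP (Xc c) * 10 ^ 10 - St_ c * (Dc ^ 17 * 355687428096000)) ≤
      18 * (Dc ^ 17 * 355687428096000)) &&
  decide (-(18 * (Dc ^ 17 * 355687428096000)) ≤
      10 * (sinP (Xc c) * 10 ^ 10 - St_ c * (Dc ^ 17 * 355687428096000)))

theorem check_all : ∀ i : ℕ, i < 152 → (cok ((i : ℤ) - 64) && sok ((i : ℤ) - 64)) = true := by
  decide +kernel

theorem check_c (c : ℤ) (h1 : -64 ≤ c) (h2 : c < 88) : cok c = true ∧ sok c = true := by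
  have h3 := check_all (c + 64).toNat (by omega)
  have h4 : (((c + 64).toNat : ℕ) : ℤ) - 64 = c := by omega
  rw [h4, Bool.and_eq_true] at h3
  exact h3

/-- Taylor polynomials -/
theorem taylor (y : ℝ) (hy : |y| ≤ 3 / 2) :
    |Real.cos y - (1 - y ^ 2 / 2 + y ^ 4 / 24 - y ^ 6 / 720 + y ^ 8 / 40320 - y ^ 10 / 3628800 +
      y ^ 12 / 479001600 - y ^ 14 / 87178291200 + y ^ 16 / 20922789888000)| ≤ 1 / 10 ^ 12 ∧
    |Real.sin y - (y - y ^ 3 / 6 + y ^ 5 / 120 - y ^ 7 / 5040 + y ^ 9 / 362880 -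
      y ^ 11 / 39916800 + y ^ 13 / 6227020800 - y ^ 15 / 1307674368000 +
      y ^ 17 / 355687428096000)| ≤ 1 / 10 ^ 12 := by
  have hn : ‖(y : ℂ) * Complex.I‖ = |y| := by
    rw [norm_mul, Complex.norm_I, mul_one, Complex.norm_real, Real.norm_eq_abs]
  have h1 := Complex.exp_bound' (x := (y : ℂ) * Complex.I) (n := 18) (by
    rw [hn]
    have : ((Nat.succ 18 : ℕ) : ℝ) = 19 := by norm_num
    rw [this]
    linarith)
  rw [hn] at h1
  have h2 : |y| ^ 18 / (Nat.factorial 18 : ℝ) * 2 ≤ 1 / 10 ^ 12 := by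
    have h3 : |y| ^ 18 ≤ (3 / 2 : ℝ) ^ 18 := pow_le_pow_left₀ (abs_nonneg y) hy 18
    have h4 : (Nat.factorial 18 : ℝ) = 6402373705728000 := by norm_num [Nat.factorial]
    rw [h4]
    calc |y| ^ 18 / 6402373705728000 * 2 ≤ (3 / 2 : ℝ) ^ 18 / 6402373705728000 * 2 := by
          gcongr
      _ ≤ 1 / 10 ^ 12 := by norm_num
  have h5 := h1.trans h2
  set w : ℂ := Complex.exp ((y : ℂ) * Complex.I) -
    ∑ m ∈ Finset.range 18, ((y : ℂ) * Complex.I) ^ m / (m.factorial : ℂ) with hw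
  have hI2 : Complex.I ^ 2 = -1 := Complex.I_sq
  have e1 : w = ((Real.cos y - (1 - y ^ 2 / 2 + y ^ 4 / 24 - y ^ 6 / 720 + y ^ 8 / 40320 -
      y ^ 10 / 3628800 + y ^ 12 / 479001600 - y ^ 14 / 87178291200 +
      y ^ 16 / 20922789888000) : ℝ) : ℂ) +
      ((Real.sin y - (y - y ^ 3 / 6 + y ^ 5 / 120 - y ^ 7 / 5040 + y ^ 9 / 362880 -
      y ^ 11 / 39916800 + y ^ 13 / 6227020800 - y ^ 15 / 1307674368000 +
      y ^ 17 / 355687428096000) : ℝ) : ℂ) * Complex.I := by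
    rw [hw, Complex.exp_mul_I]
    have p3 : Complex.I ^ 3 = -Complex.I := Complex.I_pow_three
    have p4 : Complex.I ^ 4 = 1 := Complex.I_pow_four
    have p5 : Complex.I ^ 5 = Complex.I := by rw [show 5 = 4 + 1 by rfl, pow_add, p4]; ring
    have p6 : Complex.I ^ 6 = -1 := by rw [show 6 = 4 + 2 by rfl, pow_add, p4, hI2]; ring
    have p7 : Complex.I ^ 7 = -Complex.I := by rw [show 7 = 4 + 3 by rfl, pow_add, p4, p3]; ring
    have p8 : Complex.I ^ 8 = 1 := by rw [show 8 = 4 + 4 by rfl, pow_add, p4]; ring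
    have p9 : Complex.I ^ 9 = Complex.I := by rw [show 9 = 8 + 1 by rfl, pow_add, p8]; ring
    have p10 : Complex.I ^ 10 = -1 := by rw [show 10 = 8 + 2 by rfl, pow_add, p8, hI2]; ring
    have p11 : Complex.I ^ 11 = -Complex.I := by
      rw [show 11 = 8 + 3 by rfl, pow_add, p8, p3]; ring
    have p12 : Complex.I ^ 12 = 1 := by rw [show 12 = 8 + 4 by rfl, pow_add, p8, p4]; ring
    have p13 : Complex.I ^ 13 = Complex.I := by
      rw [show 13 = 12 + 1 by rfl, pow_add, p12]; ring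
    have p14 : Complex.I ^ 14 = -1 := by rw [show 14 = 12 + 2 by rfl, pow_add, p12, hI2]; ring
    have p15 : Complex.I ^ 15 = -Complex.I := by
      rw [show 15 = 12 + 3 by rfl, pow_add, p12, p3]; ring
    have p16 : Complex.I ^ 16 = 1 := by rw [show 16 = 12 + 4 by rfl, pow_add, p12, p4]; ring
    have p17 : Complex.I ^ 17 = Complex.I := by
      rw [show 17 = 16 + 1 by rfl, pow_add, p16]; ring
    simp only [Finset.sum_range_succ, Finset.sum_range_zero, mul_pow, hI2, p3, p4, p5, p6, p7, p8,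
      p9, p10, p11, p12, p13, p14, p15, p16, p17, Nat.factorial]
    push_cast
    ring
  have hre : w.re = Real.cos y - (1 - y ^ 2 / 2 + y ^ 4 / 24 - y ^ 6 / 720 + y ^ 8 / 40320 -
      y ^ 10 / 3628800 + y ^ 12 / 479001600 - y ^ 14 / 87178291200 +
      y ^ 16 / 20922789888000) := by
    rw [e1, Complex.add_re, Complex.ofReal_re, Complex.re_ofReal_mul, Complex.I_re, mul_zero,
      add_zero]
  have him : w.im = Real.sin y - (y - y ^ 3 / 6 + y ^ 5 / 120 - y ^ 7 / 5040 + y ^ 9 / 362880 -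
      y ^ 11 / 39916800 + y ^ 13 / 6227020800 - y ^ 15 / 1307674368000 +
      y ^ 17 / 355687428096000) := by
    rw [e1, Complex.add_im, Complex.ofReal_im, Complex.im_ofReal_mul, Complex.I_im, mul_one,
      zero_add]
  constructor
  · rw [← hre]
    exact (Complex.abs_re_le_norm w).trans h5
  · rw [← him]
    exact (Complex.abs_im_le_norm w).trans h5

theorem cs : CSStmt := by
  intro w hw c hc1 hc2
  obtain ⟨hck, hsk⟩ := check_c c hc1 hc2
  have hcR1 : (-64 : ℝ) ≤ c := by exact_mod_cast hc1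
  have hcR2 : (c : ℝ) ≤ 87 := by
    have : c ≤ 87 := by omega
    exact_mod_cast this
  set y0 : ℝ := 0.128606789191749 * (2 * c + 1) / 16 with hy0
  have hXD : y0 = (Xc c : ℝ) / (Dc : ℝ) := by
    rw [hy0, Xc, Dc]
    push_cast
    ring
  have hy0b : |y0| ≤ 3 / 2 := by
    rw [abs_le, hy0]
    constructor <;> linarith
  have hdiff : |w * (2 * c + 1) / 16 - y0| ≤ 11 / 10 ^ 12 := by
    have e : w * (2 * c + 1) / 16 - y0 = (w - 0.128606789191749) * ((2 * c + 1) / 16) := by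
      rw [hy0]; ring
    rw [e, abs_mul]
    have h1 : |((2 * (c : ℝ) + 1) / 16)| ≤ 11 := by
      rw [abs_le]
      constructor <;> linarith
    calc |w - 0.128606789191749| * |((2 * (c : ℝ) + 1) / 16)| ≤ 1 / 10 ^ 12 * 11 :=
          mul_le_mul hw h1 (abs_nonneg _) (by norm_num)
      _ = 11 / 10 ^ 12 := by ring
  obtain ⟨ht1, ht2⟩ := taylor y0 hy0b
  have hD : (Dc : ℝ) ≠ 0 := by
    rw [Dc]; norm_num
  have hDpos : (0 : ℝ) < (Dc : ℝ) := by
    rw [Dc]; norm_num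
  constructor
  · have h1 : |Real.cos (w * (2 * c + 1) / 16) - Real.cos y0| ≤ 11 / 10 ^ 12 :=
      (Real.abs_cos_sub_cos_le _ _).trans hdiff
    have h2 : (1 - y0 ^ 2 / 2 + y0 ^ 4 / 24 - y0 ^ 6 / 720 + y0 ^ 8 / 40320 - y0 ^ 10 / 3628800 +
      y0 ^ 12 / 479001600 - y0 ^ 14 / 87178291200 + y0 ^ 16 / 20922789888000) =
        (cosP (Xc c) : ℝ) / ((Dc : ℝ) ^ 16 * 20922789888000) := by
      rw [hXD, cosP]
      push_cast
      field_simp
      ring
    rw [cok, Bool.and_eq_true, decide_eq_true_eq, decide_eq_true_eq] at hck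
    have h3 : |(cosP (Xc c) : ℝ) / ((Dc : ℝ) ^ 16 * 20922789888000) - (Ct c : ℝ) / 10 ^ 10| ≤
        18 / 10 ^ 11 := by
      have hp : (0 : ℝ) < (Dc : ℝ) ^ 16 * 20922789888000 := by positivity
      have h4 : (10 * ((cosP (Xc c) : ℝ) * 10 ^ 10 - Ct c * ((Dc : ℝ) ^ 16 * 20922789888000))) ≤
          18 * ((Dc : ℝ) ^ 16 * 20922789888000) := by exact_mod_cast hck.1
      have h5 : -(18 * ((Dc : ℝ) ^ 16 * 20922789888000)) ≤
          (10 * ((cosP (Xc c) : ℝ) * 10 ^ 10 - Ct c * ((Dc : ℝ) ^ 16 * 20922789888000))) := by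
        exact_mod_cast hck.2
      have h6 : (cosP (Xc c) : ℝ) / ((Dc : ℝ) ^ 16 * 20922789888000) - (Ct c : ℝ) / 10 ^ 10 =
          (10 * ((cosP (Xc c) : ℝ) * 10 ^ 10 - Ct c * ((Dc : ℝ) ^ 16 * 20922789888000))) /
            (10 ^ 11 * ((Dc : ℝ) ^ 16 * 20922789888000)) := by
        field_simp
      rw [h6, abs_le]
      constructor
      · rw [le_div_iff₀ (by positivity)]
        linarith
      · rw [div_le_iff₀ (by positivity)]
        linarith
    rw [h2] at ht1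
    rw [abs_le] at h1 h3 ht1 ⊢
    constructor <;> linarith [h1.1, h1.2, h3.1, h3.2, ht1.1, ht1.2]
  · have h1 : |Real.sin (w * (2 * c + 1) / 16) - Real.sin y0| ≤ 11 / 10 ^ 12 :=
      (Real.abs_sin_sub_sin_le _ _).trans hdiff
    have h2 : (y0 - y0 ^ 3 / 6 + y0 ^ 5 / 120 - y0 ^ 7 / 5040 + y0 ^ 9 / 362880 -
      y0 ^ 11 / 39916800 + y0 ^ 13 / 6227020800 - y0 ^ 15 / 1307674368000 +
      y0 ^ 17 / 355687428096000) =
        (sinP (Xc c) : ℝ) / ((Dc : ℝ) ^ 17 * 355687428096000) := by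
      rw [hXD, sinP]
      push_cast
      field_simp
      ring
    rw [sok, Bool.and_eq_true, decide_eq_true_eq, decide_eq_true_eq] at hsk
    have h3 : |(sinP (Xc c) : ℝ) / ((Dc : ℝ) ^ 17 * 355687428096000) - (St_ c : ℝ) / 10 ^ 10| ≤
        18 / 10 ^ 11 := by
      have hp : (0 : ℝ) < (Dc : ℝ) ^ 17 * 355687428096000 := by positivity
      have h4 : (10 * ((sinP (Xc c) : ℝ) * 10 ^ 10 - St_ c * ((Dc : ℝ) ^ 17 * 355687428096000))) ≤
          18 * ((Dc : ℝ) ^ 17 * 355687428096000) := by exact_mod_cast hsk.1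
      have h5 : -(18 * ((Dc : ℝ) ^ 17 * 355687428096000)) ≤
          (10 * ((sinP (Xc c) : ℝ) * 10 ^ 10 - St_ c * ((Dc : ℝ) ^ 17 * 355687428096000))) := by
        exact_mod_cast hsk.2
      have h6 : (sinP (Xc c) : ℝ) / ((Dc : ℝ) ^ 17 * 355687428096000) - (St_ c : ℝ) / 10 ^ 10 =
          (10 * ((sinP (Xc c) : ℝ) * 10 ^ 10 - St_ c * ((Dc : ℝ) ^ 17 * 355687428096000))) /
            (10 ^ 11 * ((Dc : ℝ) ^ 17 * 355687428096000)) := by
        field_simp
      rw [h6, abs_le]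
      constructor
      · rw [le_div_iff₀ (by positivity)]
        linarith
      · rw [div_le_iff₀ (by positivity)]
        linarith
    rw [h2] at ht2
    rw [abs_le] at h1 h3 ht2 ⊢
    constructor <;> linarith [h1.1, h1.2, h3.1, h3.2, ht2.1, ht2.2]

end H18

end SA
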