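import Pool.Agent.Helper88_SA.StmtN

/-!
# NUMCOS (MP_de6679_lc)

From the middle of the cells to the widened cells.
-/

namespace SA

namespace H18

theorem cdiv_ge (a b : ℤ) (hb : 0 < b) : (a : ℝ) / b ≤ (cdiv a b : ℝ) := by
  have h1 : (-a) / b * b ≤ -a := Int.ediv_mul_le _ hb.ne'
  have h2 : (((-a) / b : ℤ) : ℝ) * b ≤ -(a : ℝ) := by exact_mod_cast h1
  have hb' : (0 : ℝ) < b := by exact_mod_cast hb
  rw [div_le_iff₀ hb', cdiv]
  push_cast
  linarith

theorem step_bound {w : ℝ} (hw : |w - 0.128606789191749| ≤ 1 / 10 ^ 12) {c : ℝ} {φ : ℝ}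
    (h1 : c / 8 - 0.035 ≤ φ) (h2 : φ ≤ (c + 1) / 8 + 0.035) :
    |w * φ - w * (2 * c + 1) / 16| ≤ (HWn : ℝ) / 10 ^ 10 := by
  rw [abs_le] at hw
  have e : w * φ - w * (2 * c + 1) / 16 = w * (φ - (2 * c + 1) / 16) := by ring
  rw [e, abs_mul]
  have h3 : |w| ≤ 0.12860678919275 := by
    rw [abs_le]
    constructor <;> linarith [hw.1, hw.2]
  have h4 : |φ - (2 * c + 1) / 16| ≤ 0.0975 := by
    rw [abs_le]
    constructor <;> linarith
  calc |w| * |φ - (2 * c + 1) / 16| ≤ 0.12860678919275 * 0.0975 :=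
        mul_le_mul h3 h4 (abs_nonneg _) (by norm_num)
    _ ≤ (HWn : ℝ) / 10 ^ 10 := by rw [HWn]; norm_num

theorem numcos : NumCosStmt := by
  intro hCS w hw
  have hw' := abs_le.mp hw
  have hpi := Real.pi_gt_d6
  have hpi2 := Real.pi_lt_d6
  refine ⟨?_, ?_, ?_⟩
  · intro c hc1 hc2 φ h1 h2
    obtain ⟨hc, hs⟩ := hCS w hw c hc1 hc2
    set a := w * (2 * c + 1) / 16 with ha
    set h := w * φ - a with hh
    have hb : |h| ≤ (HWn : ℝ) / 10 ^ 10 := step_bound hw h1 h2
    have hcR1 : (-64 : ℝ) ≤ c := by exact_mod_cast hc1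
    have hcR2 : (c : ℝ) ≤ 87 := by
      have : c ≤ 87 := by omega
      exact_mod_cast this
    have hcos : 0 ≤ Real.cos a := by
      apply Real.cos_nonneg_of_neg_pi_div_two_le_of_le
      · rw [ha]; nlinarith [hw'.1, hw'.2]
      · rw [ha]; nlinarith [hw'.1, hw'.2]
    have e1 : w * φ = a + h := by rw [hh]; ring
    rw [e1, Real.cos_add]
    have h3 : Real.cos a * Real.cos h ≤ Real.cos a := by
      have := mul_le_mul_of_nonneg_left (Real.cos_le_one h) hcos
      linarith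
    have h4 : -(Real.sin a * Real.sin h) ≤ |Real.sin a| * ((HWn : ℝ) / 10 ^ 10) := by
      calc -(Real.sin a * Real.sin h) ≤ |Real.sin a * Real.sin h| := neg_le_abs _
        _ = |Real.sin a| * |Real.sin h| := abs_mul _ _
        _ ≤ |Real.sin a| * ((HWn : ℝ) / 10 ^ 10) :=
            mul_le_mul_of_nonneg_left (Real.abs_sin_le_abs.trans hb) (abs_nonneg _)
    have h5 : Real.cos a ≤ ((Ct c : ℝ) + 2) / 10 ^ 10 := by
      have := (abs_le.mp hc).2
      linarith
    have h6 : |Real.sin a| ≤ (|(St_ c : ℝ)| + 2) / 10 ^ 10 := by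
      have h7 : |Real.sin a| ≤ |(St_ c : ℝ) / 10 ^ 10| + 2 / 10 ^ 10 := by
        have h8 : |Real.sin a| ≤ |Real.sin a - (St_ c : ℝ) / 10 ^ 10| + |(St_ c : ℝ) / 10 ^ 10| := by
          have := abs_add_le (Real.sin a - (St_ c : ℝ) / 10 ^ 10) ((St_ c : ℝ) / 10 ^ 10)
          rwa [sub_add_cancel] at this
        linarith
      rw [abs_div, abs_of_pos (by norm_num : (0 : ℝ) < 10 ^ 10)] at h7
      rw [add_div]
      exact h7
    have hHW : (0 : ℝ) ≤ (HWn : ℝ) / 10 ^ 10 := by rw [HWn]; norm_num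
    have h9 : Real.cos a * Real.cos h - Real.sin a * Real.sin h ≤
        ((Ct c : ℝ) + 2) / 10 ^ 10 + (|(St_ c : ℝ)| + 2) / 10 ^ 10 * ((HWn : ℝ) / 10 ^ 10) := by
      have := mul_le_mul_of_nonneg_right h6 hHW
      linarith
    have h10 := cdiv_ge ((|St_ c| + 2) * HWn) (10 ^ 10) (by norm_num)
    have h11 : (Real.cos a * Real.cos h - Real.sin a * Real.sin h) ≤ 1 := by
      rw [← Real.cos_add]; exact Real.cos_le_one _
    rw [cosmaxN]
    push_cast at h10 ⊢
    rw [le_div_iff₀ (by norm_num)]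
    apply le_min
    · linarith
    · have h12 : (((Ct c : ℝ) + 2) / 10 ^ 10 + (|(St_ c : ℝ)| + 2) / 10 ^ 10 *
          ((HWn : ℝ) / 10 ^ 10)) * 10 ^ 10 = (Ct c : ℝ) + 2 + (|(St_ c : ℝ)| + 2) * HWn / 10 ^ 10 := by
        field_simp
      have h13 := mul_le_mul_of_nonneg_right h9 (by norm_num : (0 : ℝ) ≤ 10 ^ 10)
      rw [h12] at h13
      linarith
  · intro c hc1 hc2 φ h1 h2
    obtain ⟨hc, hs⟩ := hCS w hw c (by omega) hc2
    set a := w * (2 * c + 1) / 16 with ha
    set h := w * φ - a with hh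
    have hb : |h| ≤ (HWn : ℝ) / 10 ^ 10 := step_bound hw h1 h2
    have hcR1 : (-64 : ℝ) ≤ c := by
      have : -64 ≤ c := by omega
      exact_mod_cast this
    have hcR2 : (c : ℝ) ≤ 87 := by
      have : c ≤ 87 := by omega
      exact_mod_cast this
    have hcos : 0 ≤ Real.cos a := by
      apply Real.cos_nonneg_of_neg_pi_div_two_le_of_le
      · rw [ha]; nlinarith [hw'.1, hw'.2]
      · rw [ha]; nlinarith [hw'.1, hw'.2]
    have e1 : w * φ = a + h := by rw [hh]; ring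
    rw [e1, Real.cos_add]
    have hHW : (0 : ℝ) ≤ (HWn : ℝ) / 10 ^ 10 := by rw [HWn]; norm_num
    have hsq : h ^ 2 ≤ ((HWn : ℝ) / 10 ^ 10) ^ 2 := by
      rw [← sq_abs]
      exact pow_le_pow_left₀ (abs_nonneg _) hb 2
    have h3 : Real.cos a - ((HWn : ℝ) / 10 ^ 10) ^ 2 / 2 ≤ Real.cos a * Real.cos h := by
      have h31 := Real.one_sub_sq_div_two_le_cos (x := h)
      have h32 : Real.cos a * (1 - Real.cos h) ≤ 1 * (((HWn : ℝ) / 10 ^ 10) ^ 2 / 2) :=
        mul_le_mul (Real.cos_le_one a) (by linarith) (by linarith [Real.cos_le_one h]) (by norm_num)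
      linarith
    have h4 : Real.sin a * Real.sin h ≤ |Real.sin a| * ((HWn : ℝ) / 10 ^ 10) := by
      calc Real.sin a * Real.sin h ≤ |Real.sin a * Real.sin h| := le_abs_self _
        _ = |Real.sin a| * |Real.sin h| := abs_mul _ _
        _ ≤ |Real.sin a| * ((HWn : ℝ) / 10 ^ 10) :=
            mul_le_mul_of_nonneg_left (Real.abs_sin_le_abs.trans hb) (abs_nonneg _)
    have h5 : ((Ct c : ℝ) - 2) / 10 ^ 10 ≤ Real.cos a := by
      have := (abs_le.mp hc).1
      linarith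
    have h6 : |Real.sin a| ≤ (|(St_ c : ℝ)| + 2) / 10 ^ 10 := by
      have h7 : |Real.sin a| ≤ |(St_ c : ℝ) / 10 ^ 10| + 2 / 10 ^ 10 := by
        have h8 : |Real.sin a| ≤ |Real.sin a - (St_ c : ℝ) / 10 ^ 10| + |(St_ c : ℝ) / 10 ^ 10| := by
          have := abs_add_le (Real.sin a - (St_ c : ℝ) / 10 ^ 10) ((St_ c : ℝ) / 10 ^ 10)
          rwa [sub_add_cancel] at this
        linarith
      rw [abs_div, abs_of_pos (by norm_num : (0 : ℝ) < 10 ^ 10)] at h7
      rw [add_div]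
      exact h7
    have h9 : ((Ct c : ℝ) - 2) / 10 ^ 10 - (|(St_ c : ℝ)| + 2) / 10 ^ 10 * ((HWn : ℝ) / 10 ^ 10) -
        ((HWn : ℝ) / 10 ^ 10) ^ 2 / 2 ≤ Real.cos a * Real.cos h - Real.sin a * Real.sin h := by
      have := mul_le_mul_of_nonneg_right h6 hHW
      linarith
    have h10 := cdiv_ge ((|St_ c| + 2) * HWn) (10 ^ 10) (by norm_num)
    have h11 := cdiv_ge (HWn * HWn) (2 * 10 ^ 10) (by norm_num)
    rw [cminN]
    push_cast at h10 h11 ⊢
    rw [div_le_iff₀ (by norm_num)]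
    have h12 : (((Ct c : ℝ) - 2) / 10 ^ 10 - (|(St_ c : ℝ)| + 2) / 10 ^ 10 *
        ((HWn : ℝ) / 10 ^ 10) - ((HWn : ℝ) / 10 ^ 10) ^ 2 / 2) * 10 ^ 10 =
        (Ct c : ℝ) - 2 - (|(St_ c : ℝ)| + 2) * HWn / 10 ^ 10 - (HWn : ℝ) * HWn / (2 * 10 ^ 10) := by
      field_simp
    have h13 := mul_le_mul_of_nonneg_right h9 (by norm_num : (0 : ℝ) ≤ 10 ^ 10)
    rw [h12] at h13
    linarith
  · intro φ h1 h2
    -- the cosine at 1.0243
    obtain ⟨hc, hs⟩ := hCS w hw (-64) (by norm_num) (by norm_num)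
    have hCt : Ct (-64) ≤ 5226750000 := by
      decide +kernel
    have hSt : St_ (-64) ≤ -8525000000 := by
      decide +kernel
    have e0 : w * (2 * ((-64 : ℤ) : ℝ) + 1) / 16 = -(w * 127 / 16) := by
      push_cast; ring
    rw [e0] at hc hs
    rw [Real.cos_neg] at hc
    rw [Real.sin_neg] at hs
    have hc64 : Real.cos (w * 127 / 16) ≤ 0.52268 := by
      have h3 := (abs_le.mp hc).2
      have h4 : (Ct (-64) : ℝ) ≤ 5226750000 := by exact_mod_cast hCt
      linarith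
    have hs64 : 0.85249 ≤ Real.sin (w * 127 / 16) := by
      have h3 := (abs_le.mp hs).2
      have h4 : (St_ (-64) : ℝ) ≤ -8525000000 := by exact_mod_cast hSt
      linarith
    set δ := w * 0.0275 with hδ
    have hδ1 : 0.00353668 ≤ δ := by rw [hδ]; linarith [hw'.1]
    have hδ2 : δ ≤ 0.00353669 := by rw [hδ]; linarith [hw'.2]
    have hsδ : 0.0035366 ≤ Real.sin δ := by
      have h3 := Real.sin_gt_sub_cube (x := δ) (by linarith)
      have h4 : δ ^ 3 ≤ (0.00353669 : ℝ) ^ 3 := pow_le_pow_left₀ (by linarith) hδ2 3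
      have h5 : (0.00353669 : ℝ) ^ 3 / 6 ≤ 0.00000002 := by norm_num
      linarith
    have hcos0 : 0 ≤ Real.cos (w * 127 / 16) := by
      apply Real.cos_nonneg_of_neg_pi_div_two_le_of_le
      · linarith [hw'.1, hw'.2]
      · linarith [hw'.1, hw'.2]
    have hy1 : Real.cos (w * 7.965) ≤ 0.5197 := by
      have e1 : w * 7.965 = w * 127 / 16 + δ := by rw [hδ]; ring
      rw [e1, Real.cos_add]
      have h3 : Real.cos (w * 127 / 16) * Real.cos δ ≤ Real.cos (w * 127 / 16) := by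
        have := mul_le_mul_of_nonneg_left (Real.cos_le_one δ) hcos0
        linarith
      have h4 : 0.85249 * 0.0035366 ≤ Real.sin (w * 127 / 16) * Real.sin δ :=
        mul_le_mul hs64 hsδ (by norm_num) (by linarith)
      linarith
    have e2 : Real.cos (w * φ) = Real.cos (-(w * φ)) := (Real.cos_neg _).symm
    have hwp : 0 < w := by linarith [hw'.1]
    have hya : w * 7.965 ≤ -(w * φ) := by
      have := mul_le_mul_of_nonneg_left h2 hwp.le
      linarith
    have hyb : -(w * φ) ≤ 4.8807 := by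
      have h3 := mul_le_mul_of_nonneg_left h1 hwp.le
      have h4 : w * 37.95 ≤ 4.8807 := by linarith [hw'.2]
      linarith
    have hwa : w * 7.965 ≤ 1.0244 := by linarith [hw'.2]
    rw [e2]
    rcases le_total (-(w * φ)) Real.pi with h | h
    · exact (Real.cos_le_cos_of_nonneg_of_le_pi (by positivity) h hya).trans hy1
    · have e3 : Real.cos (-(w * φ)) = Real.cos (2 * Real.pi - -(w * φ)) := by
        rw [Real.cos_two_pi_sub]
      rw [e3]
      exact (Real.cos_le_cos_of_nonneg_of_le_pi (by positivity) (by linarith) (by linarith)).trans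
        hy1

end H18

end SA
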