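import Pool.Agent.Helper88_SA.StmtP

/-!
# SEP, AHI, STRUCTFIN (MP_de6679_lc)
-/

namespace SA

namespace H18

theorem cell_of_kap {c : ℤ} (h : 0 < dmt c) : -47 ≤ c ∧ c < 24 := by
  by_contra h0
  rw [dmt, if_neg h0] at h
  exact lt_irrefl _ h

theorem sep (hD : DriftStmt) (hC : CycbStmt) (b : NumA) : SepStmt := by
  intro T x0 z th hctx k hH
  have key : ∀ m, 171 ≤ m → m < 1525 + k → kap T m = 0 ∨ ∃ i, i < k ∧ m = 1525 + i := by
    intro m h1 h2
    rcases lt_or_ge m 1525 with h | h
    · left; exact hctx.sim.kap_quiet m h1 h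
    · right; exact ⟨m - 1525, by omega, by omega⟩
  refine ⟨?_, ?_⟩
  · intro m h1 h2
    rcases key m h1 h2 with h | ⟨i, hi, rfl⟩
    · omega
    · have h3 := (hH i hi).kle
      have h4 := b.pass.dmax (cell T x0 th i)
      omega
  · intro m m' h1 h2 h3 h4 h5
    rcases key m h1 (by omega) with h | ⟨i, hi, rfl⟩
    · omega
    rcases key m' (by omega) h3 with h | ⟨i', hi', rfl⟩
    · omega
    have c1 := cell_of_kap (lt_of_lt_of_le h4 (hH i hi).kle)
    have c2 := cell_of_kap (lt_of_lt_of_le h5 (hH i' hi').kle)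
    have hii : i < i' := by omega
    obtain ⟨-, -, p1, p2, -⟩ := hC T x0 z th hctx i
    obtain ⟨-, -, p3, p4, -⟩ := hC T x0 z th hctx i'
    obtain ⟨d1, d2, -⟩ := hD T x0 z th hctx k hH i i' hii.le hi'.le
    have e1 : (-47 : ℝ) ≤ cell T x0 th i := by exact_mod_cast c1.1
    have e2 : (cell T x0 th i : ℝ) ≤ 23 := by
      have : cell T x0 th i ≤ 23 := by omega
      exact_mod_cast this
    have e3 : (-47 : ℝ) ≤ cell T x0 th i' := by exact_mod_cast c2.1
    have e4 : (cell T x0 th i' : ℝ) ≤ 23 := by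
      have : cell T x0 th i' ≤ 23 := by omega
      exact_mod_cast this
    have hper := abs_le.mp hctx.nr.per_enc
    have d3 := abs_le.mp d2
    have hpp : ph T x0 th i - ph T x0 th i' = pp T x0 th i - pp T x0 th i' +
        ((cyc T x0 th i' : ℝ) - cyc T x0 th i) * per th := by
      rw [pp, pp]; ring
    rw [hpp] at d3
    rcases d1.eq_or_lt with h | h
    · left
      have h6 : (cyc T x0 th i : ℝ) = cyc T x0 th i' := by exact_mod_cast h
      rw [h6] at d3
      have h7 : (i' : ℝ) - i < 9 := by linarith [d3.1]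
      have h8 : (i' : ℝ) < i + 9 := by linarith
      have h9 : i' < i + 9 := by exact_mod_cast h8
      omega
    · right
      have h6 : (cyc T x0 th i : ℝ) + 1 ≤ cyc T x0 th i' := by exact_mod_cast h
      set q : ℝ := (cyc T x0 th i' : ℝ) - cyc T x0 th i with hq
      have hq1 : 1 ≤ q := by linarith
      have h7 : 39 < (i' : ℝ) - i := by
        have h8 : q * (per th - 0.027) ≥ 1 * (per th - 0.027) :=
          mul_le_mul_of_nonneg_right hq1 (by linarith [hper.1])
        nlinarith [d3.2, hper.1]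
      have h8 : (i : ℝ) + 39 < i' := by linarith
      have h9 : i + 39 < i' := by exact_mod_cast h8
      omega

theorem ahi (hAm : AmStmt) (hLo : LoStmt) (hLy : LyapStmt) (hR : RefStmt) (hSA : StepAStmt)
    (hD : DriftStmt) : AhiStmt := by
  intro T x0 z th hctx k hH
  obtain ⟨hc0, hr0, href⟩ := hR T x0 z th hctx k hH
  obtain ⟨J, hJ⟩ := Int.eq_ofNat_of_zero_le hc0
  have hkk : ∀ i, i < k → 0 ≤ kk T x0 th i := by
    intro i hi
    obtain ⟨-, -, -, -, h5, -⟩ := hSA T x0 z th hctx i (fun i' hi' => hH i' (by omega))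
    exact h5
  have hcy : ∀ m, m ≤ k → cyc T x0 th m ≤ J := by
    intro m hm
    have := (hD T x0 z th hctx k hH m k hm le_rfl).1
    rw [hJ] at this
    exact this
  -- the last indices
  have hstep : ∀ j, j < J → ref T x0 th (j + 1) ≤ k ∧ ref T x0 th j < ref T x0 th (j + 1) := by
    intro j hj
    have h1 := href (j + 1) (by rw [hJ]; exact_mod_cast hj)
    have h2 := href j (by rw [hJ]; exact_mod_cast hj.le)
    obtain ⟨-, -, -, -, -, -, h3, -⟩ := h2
    refine ⟨h1.1, ?_⟩
    rcases h3 (by rw [hJ]; exact_mod_cast hj) with h | h <;> omega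
  have hJle : ref T x0 th J ≤ k := (href J (by rw [hJ])).1
  have hlast : Am T x0 th (ref T x0 th J) ≤ 1.0567 := by
    refine hLy J (fun j => Am T x0 th (ref T x0 th j)) (fun j => KK T x0 th j) ?_ ?_ ?_ ?_ ?_
    · intro j hj
      exact Finset.sum_nonneg fun i hi => hkk i (by
        rw [Finset.mem_Ico] at hi
        have := (hstep j hj).1
        omega)
    · intro j hj
      obtain ⟨s1, s2⟩ := hstep j hj
      have h1 := href (j + 1) (by rw [hJ]; exact_mod_cast hj)
      have h2 := href j (by rw [hJ]; exact_mod_cast hj.le)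
      exact (hAm T x0 z th hctx k hH j (by rw [hJ]; exact_mod_cast hj.le) _ s2.le s1
        (fun m hm1 hm2 => by
          have h3 := h1.2.2.2.2.1 m hm2
          have h4 := h2.2.2.2.2.2.1 m hm1 (by omega)
          push_cast at h3
          omega)).1
    · show Am T x0 th (ref T x0 th 0) < 1.056
      rw [hr0]
      have := abs_le.mp hctx.sim.Abd
      show ‖xin T x0 th (1525 + 0)‖ < 1.056
      rw [add_zero]
      linarith [this.2]
    · intro j hj
      obtain ⟨s1, s2⟩ := hstep j hj
      exact (hH (ref T x0 th j) (by omega)).Ahi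
    · intro j hj1 hj ha
      exact hLo T x0 z th hctx k hH j hj1 (by rw [hJ]; exact_mod_cast hj) ha
  have h1 := (hAm T x0 z th hctx k hH J (by rw [hJ]) k hJle le_rfl (fun m hm1 hm2 => by
    have h3 := (href J (by rw [hJ])).2.2.2.2.2.1 m hm1 hm2.le
    have h4 := hcy m hm2.le
    omega)).1
  have h2 : 0 ≤ ∑ m ∈ Finset.Ico (ref T x0 th J) k, kk T x0 th m :=
    Finset.sum_nonneg fun i hi => hkk i (Finset.mem_Ico.mp hi).2
  linarith

theorem structfin (hSep : SepStmt) (hQ : QuietStmt) (hI : InfKStmt) (hL : LimStmt)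
    (hS : StartStmt) : StructFinStmt := by
  intro T x0 z th hctx hPP
  obtain ⟨hR, hB⟩ := hL T x0 z th hctx hPP
  refine ⟨?_, hB, hR, hctx.sim.kap_init, ?_, ?_, ?_, hI T x0 z th hctx hPP,
    hS T x0 z th hctx hPP⟩
  · intro n
    rcases lt_or_ge n 1525 with h | h
    · exact hctx.sim.valid n h
    · have := (hPP (n - 1525)).val
      rwa [show 1525 + (n - 1525) = n by omega] at this
  · intro n h1 h2
    rcases lt_or_ge n 1525 with h | h
    · exact hctx.sim.kap_quiet n h1 h
    · have := (hQ T x0 z th hctx 6475 le_rfl (fun i _ => ⟨(hPP i).zlo, (hPP i).zhi⟩)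
        (n - 1525) (by omega)).2.1
      rwa [show 1525 + (n - 1525) = n by omega] at this
  · intro n h1
    exact (hSep T x0 z th hctx (n + 1) (fun i _ => hPP i)).1 n h1 (by omega)
  · intro n n' h1 h2 h3 h4
    exact (hSep T x0 z th hctx (n' + 1) (fun i _ => hPP i)).2 n n' h1 h2 (by omega) h3 h4

end H18

end SA
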